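import Pool.Agent.L0h47.NF.Defs

/-!
# Congruence subgroups and Hecke operators on functions
-/

set_option autoImplicit false

namespace Pool.Agent.L0h47.NF

open Matrix NumberField IsDedekindDomain
open scoped WithZero

variable {n : ℕ} {F : Type} [Field F] [NumberField F] {v : Pl F} {A : Type}

lemma mem_U {g : LG n v} : g ∈ U n v ↔ Bd g.1 1 ∧ Bd (g⁻¹).1 1 := Iff.rfl

lemma mem_Cg {N : ℕ} {g : LG n v} :
    g ∈ Cg n v N ↔ g ∈ U n v ∧ Bd (g.1 - 1) (vv v ((N : ℕ) : Kv v)) := Iff.rfl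

lemma Cg_of {N : ℕ} {g : LG n v} (h1 : Bd (g.1 - 1) (vv v ((N : ℕ) : Kv v)))
    (h2 : Bd ((g⁻¹).1 - 1) (vv v ((N : ℕ) : Kv v))) : g ∈ Cg n v N := by
  have key : ∀ B : Matrix (Fin n) (Fin n) (Kv v), Bd (B - 1) (vv v ((N : ℕ) : Kv v)) → Bd B 1 := by
    intro B hB
    have e : B = (B - 1) + 1 := by abel
    rw [e]
    exact (hB.mono (vv_nat_le v N)).add Bd.one
  exact ⟨⟨key _ h1, key _ h2⟩, h1⟩

lemma exists_bd (B : Matrix (Fin n) (Fin n) (Kv v)) :
    ∃ m : ℕ, m ≠ 0 ∧ Bd B (vv v ((m : ℕ) : Kv v))⁻¹ := by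
  have h : ∀ i j, ∃ m : ℕ, m ≠ 0 ∧ vv v (B i j) ≤ (vv v ((m : ℕ) : Kv v))⁻¹ := by
    intro i j
    by_cases hb : vv v (B i j) = 0
    · refine ⟨1, one_ne_zero, ?_⟩
      rw [hb]; exact bot_le
    · obtain ⟨m, hm, h⟩ := exists_nat_small v (inv_ne_zero hb)
      refine ⟨m, hm, ?_⟩
      rw [le_inv_comm₀ (zero_lt_iff.2 hb) (zero_lt_iff.2 (vv_nat_ne v hm))]
      exact h
  choose m hm h using h
  refine ⟨∏ i, ∏ j, m i j, ?_, fun i j => (h i j).trans ?_⟩
  · rw [Finset.prod_ne_zero_iff]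
    intro i _
    rw [Finset.prod_ne_zero_iff]
    intro j _
    exact hm i j
  · have hne : ∏ i, ∏ j, m i j ≠ 0 := by
      rw [Finset.prod_ne_zero_iff]
      intro i _
      rw [Finset.prod_ne_zero_iff]
      intro j _
      exact hm i j
    rw [inv_le_inv₀ (zero_lt_iff.2 (vv_nat_ne v (hm i j))) (zero_lt_iff.2 (vv_nat_ne v hne))]
    apply vv_nat_dvd
    exact (Finset.dvd_prod_of_mem (fun j => m i j) (Finset.mem_univ j)).trans
      (Finset.dvd_prod_of_mem (fun i => ∏ j, m i j) (Finset.mem_univ i))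

/-- conjugation moves deep congruence subgroups into congruence subgroups -/
lemma exists_conj (x : LG n v) (N : ℕ) :
    ∃ m : ℕ, m ≠ 0 ∧ ∀ g ∈ Cg n v (m * N), x⁻¹ * g * x ∈ Cg n v N := by
  obtain ⟨a, ha0, ha⟩ := exists_bd x.1
  obtain ⟨b, hb0, hb⟩ := exists_bd (x⁻¹).1
  have key : ∀ g ∈ Cg n v (a * b * N), Bd ((x⁻¹ * g * x).1 - 1) (vv v ((N : ℕ) : Kv v)) := by
    rintro g ⟨-, hg⟩
    have h : (x⁻¹ * g * x).1 - 1 = (x⁻¹).1 * (g.1 - 1) * x.1 := by
      rw [Units.val_mul, Units.val_mul, Matrix.mul_sub, Matrix.sub_mul, Matrix.mul_one,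
        ← Units.val_mul x⁻¹ x, inv_mul_cancel, Units.val_one]
    rw [h]
    have h1 := (hb.mul hg).mul ha
    apply h1.mono
    rw [vv_nat_mul, vv_nat_mul]
    have hA := vv_nat_ne v ha0
    have hB := vv_nat_ne v hb0
    apply le_of_eq
    field_simp
  refine ⟨a * b, mul_ne_zero ha0 hb0, fun g hg => Cg_of (key g hg) ?_⟩
  have h4 : (x⁻¹ * g * x)⁻¹ = x⁻¹ * g⁻¹ * x := by group
  rw [h4]
  exact key _ (inv_mem hg)

lemma Cg_anti {N M : ℕ} (h : N ∣ M) : Cg n v M ≤ Cg n v N := by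
  rintro g ⟨hg, hg'⟩
  exact ⟨hg, hg'.mono (vv_nat_dvd v h)⟩

lemma Cg_conj {N : ℕ} {u g : LG n v} (hu : u ∈ U n v) (hg : g ∈ Cg n v N) :
    u⁻¹ * g * u ∈ Cg n v N := by
  refine ⟨mul_mem (mul_mem (inv_mem hu) hg.1) hu, ?_⟩
  have e : (u⁻¹ * g * u).1 - 1 = (u⁻¹).1 * (g.1 - 1) * u.1 := by
    rw [Units.val_mul, Units.val_mul, Matrix.mul_sub, Matrix.sub_mul, Matrix.mul_one,
      ← Units.val_mul u⁻¹ u, inv_mul_cancel, Units.val_one]
  rw [e]
  have h1 := (Bd.mul hu.2 hg.2).mul hu.1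
  rwa [one_mul, mul_one] at h1

lemma Cg_one' {N : ℕ} (h : vv v ((N : ℕ) : Kv v) = 1) : Cg n v N = U n v := by
  apply le_antisymm
  · rintro g ⟨hg, -⟩; exact hg
  · intro g hg
    refine ⟨hg, ?_⟩
    rw [h]
    exact hg.1.sub Bd.one

lemma Cg_one : Cg n v 1 = U n v := Cg_one' (by simp)

lemma KN_anti {N M : ℕ} (h : N ∣ M) : KN n F M ≤ KN n F N := fun _ hg v => Cg_anti h (hg v)

lemma mem_KN_one {u : AG n F} : u ∈ KN n F 1 ↔ ∀ v, u.1 v ∈ U n v := by
  constructor
  · intro h l; rw [← Cg_one]; exact h l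
  · intro h l; rw [Cg_one]; exact h l

lemma KN_le_one (N : ℕ) : KN n F N ≤ KN n F 1 := KN_anti (one_dvd _)

lemma KN_conj {N : ℕ} {u g : AG n F} (hu : u ∈ KN n F 1) (hg : g ∈ KN n F N) :
    u⁻¹ * g * u ∈ KN n F N := by
  intro l
  exact Cg_conj (mem_KN_one.1 hu l) (hg l)

lemma KN_conj' {N : ℕ} {u g : AG n F} (hu : u ∈ KN n F 1) (hg : g ∈ KN n F N) :
    u * g * u⁻¹ ∈ KN n F N := by
  have := KN_conj (inv_mem hu) hg
  rwa [inv_inv] at this

lemma exists_conj_KN (x : AG n F) {N : ℕ} (hN : N ≠ 0) :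
    ∃ M : ℕ, M ≠ 0 ∧ ∀ g ∈ KN n F M, x⁻¹ * g * x ∈ KN n F N := by
  choose m hm0 hm using fun v : Pl F => exists_conj (x.1 v) N
  have hfin : ({v | x.1 v ∉ U n v}).Finite := x.2
  refine ⟨(∏ v ∈ hfin.toFinset, m v) * N, mul_ne_zero ?_ hN, fun g hg v => ?_⟩
  · rw [Finset.prod_ne_zero_iff]
    intro v _
    exact hm0 v
  · by_cases hv : x.1 v ∈ U n v
    · exact Cg_conj hv (Cg_anti (dvd_mul_left _ _) (hg v))
    · apply hm v
      refine Cg_anti ?_ (hg v)
      apply Nat.mul_dvd_mul_right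
      exact Finset.dvd_prod_of_mem m (hfin.mem_toFinset.2 hv)

lemma exists_conj_KN' (x : AG n F) {N : ℕ} (hN : N ≠ 0) :
    ∃ M : ℕ, M ≠ 0 ∧ ∀ g ∈ KN n F M, x * g * x⁻¹ ∈ KN n F N := by
  obtain ⟨M, hM, h⟩ := exists_conj_KN x⁻¹ hN
  refine ⟨M, hM, fun g hg => ?_⟩
  have := h g hg
  rwa [inv_inv] at this

lemma inc_same (v : Pl F) (y : LG n v) : (inc n v y).1 v = y := by
  classical
  exact Pi.mulSingle_eq_same v y

lemma inc_ne {v w : Pl F} (h : w ≠ v) (y : LG n v) : (inc n v y).1 w = 1 := by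
  classical
  exact Pi.mulSingle_eq_of_ne h y

lemma AG_ext {g h : AG n F} (H : ∀ v, g.1 v = h.1 v) : g = h := Subtype.ext (funext H)

lemma mul_apply' (g h : AG n F) (v : Pl F) : (g * h).1 v = g.1 v * h.1 v := rfl

lemma inv_apply' (g : AG n F) (v : Pl F) : (g⁻¹).1 v = (g.1 v)⁻¹ := rfl

lemma one_apply' (v : Pl F) : (1 : AG n F).1 v = 1 := rfl

/-- the part of an adelic matrix outside of `v` -/
noncomputable def offl (v : Pl F) (κ : AG n F) : AG n F := κ * (inc n v (κ.1 v))⁻¹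

lemma offl_same (v : Pl F) (κ : AG n F) : (offl v κ).1 v = 1 := by
  unfold offl
  rw [mul_apply', inv_apply', inc_same, mul_inv_cancel]

lemma offl_ne {v w : Pl F} (h : w ≠ v) (κ : AG n F) : (offl v κ).1 w = κ.1 w := by
  unfold offl
  rw [mul_apply', inv_apply', inc_ne h, inv_one, mul_one]

lemma offl_comm (v : Pl F) (κ : AG n F) (y : LG n v) :
    offl v κ * inc n v y = inc n v y * offl v κ := by
  apply AG_ext
  intro m
  rw [mul_apply', mul_apply']
  by_cases h : m = v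
  · subst h
    rw [offl_same, one_mul, mul_one]
  · rw [inc_ne h, one_mul, mul_one]

lemma offl_mul (v : Pl F) (κ : AG n F) : offl v κ * inc n v (κ.1 v) = κ := by
  unfold offl
  rw [inv_mul_cancel_right]

/-- right invariance under `GL_n(O_v)` -/
def RU (v : Pl F) (f : AG n F → A) : Prop := ∀ g, ∀ u ∈ U n v, f (g * inc n v u) = f g

lemma RU.coset {f : AG n F → A} (h : RU v f) (g : AG n F) {x y : LG n v}
    (hxy : (x : LG n v ⧸ U n v) = (y : LG n v ⧸ U n v)) :
    f (g * inc n v x) = f (g * inc n v y) := by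
  rw [QuotientGroup.eq] at hxy
  have e : y = x * (x⁻¹ * y) := by group
  rw [e, map_mul, ← mul_assoc, h _ _ hxy]

lemma RU.offl {f : AG n F → A} (h : RU v f) (κ : AG n F) : RU v (fun g => f (g * offl v κ)) := by
  intro g u hu
  show f (g * inc n v u * NF.offl v κ) = f (g * NF.offl v κ)
  rw [mul_assoc, ← offl_comm, ← mul_assoc, h _ _ hu]

/-- left multiplication by an element of `GL_n(O_v)` on the cosets in a double coset -/
noncomputable def shift (x : LG n v) (u : U n v) : HC n v x ≃ HC n v x where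
  toFun c := ⟨u.1 • c.1, by
    obtain ⟨v, hv, e⟩ := c.2
    refine ⟨u.1 * v, mul_mem u.2 hv, ?_⟩
    rw [e, mul_assoc]
    rfl⟩
  invFun c := ⟨(u⁻¹).1 • c.1, by
    obtain ⟨v, hv, e⟩ := c.2
    refine ⟨(u⁻¹).1 * v, mul_mem (u⁻¹).2 hv, ?_⟩
    rw [e, mul_assoc]
    rfl⟩
  left_inv c := by
    apply Subtype.ext
    show (u⁻¹).1 • u.1 • c.1 = c.1
    rw [smul_smul, ← Subgroup.coe_mul, inv_mul_cancel, Subgroup.coe_one, one_smul]
  right_inv c := by
    apply Subtype.ext
    show u.1 • (u⁻¹).1 • c.1 = c.1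
    rw [smul_smul, ← Subgroup.coe_mul, mul_inv_cancel, Subgroup.coe_one, one_smul]

lemma shift_out (x : LG n v) (u : U n v) (c : HC n v x) :
    (((shift x u c).1.out : LG n v) : LG n v ⧸ U n v) = ((u.1 * c.1.out : LG n v) : LG n v ⧸ U n v) := by
  rw [QuotientGroup.out_eq']
  show u.1 • c.1 = _
  conv_lhs => rw [← QuotientGroup.out_eq' c.1]
  rfl

/-- the ring `𝓞 F / (N)` -/
abbrev RN (F : Type) [Field F] [NumberField F] (N : ℕ) : Type :=
  𝓞 F ⧸ Ideal.span {((N : ℕ) : 𝓞 F)}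

lemma finite_RN {N : ℕ} (hN : N ≠ 0) : Finite (RN F N) := by
  apply Ideal.finiteQuotientOfFreeOfNeBot
  rw [Ne, Ideal.span_singleton_eq_bot]
  exact_mod_cast hN

/-- integral elements of the completion are congruent to elements of `𝓞 F` -/
lemma exists_int_near (v : Pl F) {x : Kv v} (hx : vv v x ≤ 1) {N : ℕ} (hN : N ≠ 0) :
    ∃ a : 𝓞 F, vv v (x - cst v a) ≤ vv v ((N : ℕ) : Kv v) := by
  obtain ⟨q, hq⟩ := dense_cst v x (vv_nat_ne v hN)
  have hq1 : v.valuation F q ≤ 1 := by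
    rw [← vv_cst]
    have e : cst v q = (cst v q - x) + x := by ring
    rw [e]
    exact (Valuation.map_add _ _ _).trans (max_le (hq.trans (vv_nat_le v N)) hx)
  obtain ⟨a, ha⟩ := v.exists_valuation_sub_lt_of_integer hq1 (Units.mk0 _ (vv_nat_ne v hN))
  refine ⟨a, ?_⟩
  have e : x - cst v a = -(cst v q - x) + -(cst v (algebraMap (𝓞 F) F a - q)) := by
    rw [map_sub]
    show x - cst v (algebraMap (𝓞 F) F a) = _
    ring
  rw [e]
  refine (Valuation.map_add _ _ _).trans (max_le ?_ ?_)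
  · rw [Valuation.map_neg]; exact hq
  · rw [Valuation.map_neg, vv_cst]
    exact ha.le

instance finite_HC (x : LG n v) : Finite (HC n v x) := by
  obtain ⟨N, hN, hr⟩ := exists_conj x 1
  have hch : ∀ c : HC n v x, ∃ u : U n v, c.1 = ((u.1 * x : LG n v) : LG n v ⧸ U n v) := by
    rintro ⟨c, u, hu, hc⟩
    exact ⟨⟨u, hu⟩, hc⟩
  choose u hu using hch
  choose a ha using fun (c : HC n v x) (i j : Fin n) => exists_int_near v ((u c).2.1 i j) hN
  have : Finite (RN F N) := finite_RN hN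
  apply Finite.of_injective
    (fun c => (fun i j => (Ideal.Quotient.mk _ (a c i j) : RN F N) : Fin n → Fin n → RN F N))
  intro c c' h
  have h1 : (u c).1⁻¹ * (u c').1 ∈ Cg n v (N * 1) := by
    refine ⟨mul_mem (inv_mem (u c).2) (u c').2, ?_⟩
    have h1 : ((u c).1⁻¹ * (u c').1).1 - 1 = ((u c).1⁻¹).1 * ((u c').1.1 - (u c).1.1) := by
      rw [Matrix.mul_sub, ← Units.val_mul, ← Units.val_mul, inv_mul_cancel, Units.val_one]
    rw [h1, mul_one]
    have h2 : Bd ((u c').1.1 - (u c).1.1) (vv v ((N : ℕ) : Kv v)) := by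
      intro i j
      have h3 := congrFun (congrFun h i) j
      simp only at h3
      rw [Ideal.Quotient.eq, Ideal.mem_span_singleton] at h3
      obtain ⟨b, hb⟩ := h3
      have h4 : vv v (cst v (a c i j) - cst v (a c' i j)) ≤ vv v ((N : ℕ) : Kv v) := by
        have e : cst v (a c i j) - cst v (a c' i j) = ((N : ℕ) : Kv v) * cst v b := by
          rw [← map_sub]
          have e2 : ((a c i j : 𝓞 F) : F) - ((a c' i j : 𝓞 F) : F) = ((N : ℕ) : F) * (b : F) := by
            have := congrArg (algebraMap (𝓞 F) F) hb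
            rw [map_sub, map_mul, map_natCast] at this
            exact this
          rw [e2, map_mul, map_natCast]
        rw [e, map_mul]
        exact mul_le_of_le_one_right' (vv_int v b)
      have e : ((u c').1.1 - (u c).1.1) i j = ((u c').1.1 i j - cst v (a c' i j)) +
          (-((u c).1.1 i j - cst v (a c i j)) + -(cst v (a c i j) - cst v (a c' i j))) := by
        rw [Matrix.sub_apply]; ring
      rw [e]
      refine (Valuation.map_add _ _ _).trans (max_le (ha c' i j)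
        ((Valuation.map_add _ _ _).trans (max_le ?_ ?_)))
      · rw [Valuation.map_neg]; exact ha c i j
      · rw [Valuation.map_neg]; exact h4
    have := Bd.mul (u c).2.2 h2
    rwa [one_mul] at this
  have h2 := hr _ h1
  apply Subtype.ext
  rw [hu c, hu c']
  rw [QuotientGroup.eq]
  have h3 : ((u c).1 * x)⁻¹ * ((u c').1 * x) = x⁻¹ * ((u c).1⁻¹ * (u c').1) * x := by
    group
  rw [h3]
  exact h2.1

section
variable [AddCommGroup A]

/-- the effect of right translations on Hecke operators -/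
lemma hecke_shift {f : AG n F → A} (h : RU v f) (x : LG n v) (κ : AG n F) (hκ : κ.1 v ∈ U n v)
    (g : AG n F) : hecke v x f (g * κ) = hecke v x (fun g => f (g * offl v κ)) g := by
  unfold hecke
  symm
  rw [← finsum_comp_equiv (shift x ⟨κ.1 v, hκ⟩)]
  apply finsum_congr
  intro c
  have h1 := (h.offl κ).coset g (shift_out x ⟨κ.1 v, hκ⟩ c)
  refine h1.trans ?_
  show f _ = f _
  congr 1
  conv_rhs => rw [← offl_mul v κ]
  rw [mul_assoc g, mul_assoc g, mul_assoc (offl v κ), ← map_mul, offl_comm]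

lemma hecke_RU {f : AG n F → A} (h : RU v f) (x : LG n v) : RU v (hecke v x f) := by
  intro g u hu
  rw [hecke_shift h x (inc n v u) (by rw [inc_same]; exact hu)]
  congr 1
  funext g
  have : offl v (inc n v u) = 1 := by
    unfold offl
    rw [inc_same, mul_inv_cancel]
  rw [this, mul_one]

lemma hecke_left (f : AG n F → A) (x : LG n v) (a g : AG n F) :
    hecke v x (fun g => f (a * g)) g = hecke v x f (a * g) := by
  unfold hecke
  apply finsum_congr
  intro c
  rw [mul_assoc]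

lemma hecke_add (f f' : AG n F → A) (x : LG n v) (g : AG n F) :
    hecke v x (f + f') g = hecke v x f g + hecke v x f' g := by
  unfold hecke
  exact finsum_add_distrib (Set.toFinite _) (Set.toFinite _)

lemma hecke_map {B : Type} [AddCommGroup B] (φ : A →+ B) (f : AG n F → A) (x : LG n v)
    (g : AG n F) : hecke v x (fun g => φ (f g)) g = φ (hecke v x f g) := by
  unfold hecke
  exact (φ.map_finsum (Set.toFinite _)).symm

end

section
variable {Sg : Finset (Pl F)} {L : Level n Sg} {p : ℕ} {O : Type} [CommRing O] {W : Type}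
  [AddCommGroup W] [Module O W]

lemma Kf_le (L : Level n Sg) {κ : AG n F} (h : κ ∈ L.Kf) : κ ∈ KN n F 1 :=
  mem_KN_one.2 (L.le κ h)

lemma inc_mem (L : Level n Sg) (hv : v ∉ Sg) {u : LG n v} (hu : u ∈ U n v) :
    inc n v u ∈ L.Kf := L.full v hv u hu

lemma offl_mem {L : Level n Sg} (hv : v ∉ Sg) {κ : AG n F} (h : κ ∈ L.Kf) : offl v κ ∈ L.Kf :=
  mul_mem h (inv_mem (inc_mem L hv (L.le κ h v)))

lemma Fn_RU (C : Coef L p O W) (hv : v ∉ Sg) (f : C.Fn) : RU v f.1 := by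
  intro g u hu
  have h1 := f.2 g ⟨inc n v u, inc_mem L hv hu⟩
  rw [h1]
  have h2 := C.unr v hv u⁻¹ (inv_mem hu)
  have h3 : (⟨inc n v u, inc_mem L hv hu⟩ : L.Kf)⁻¹ =
      ⟨inc n v u⁻¹, L.full v hv u⁻¹ (inv_mem hu)⟩ := Subtype.ext (map_inv _ _).symm
  rw [h3, h2]
  rfl

/-- acting by the part outside of `v` -/
lemma act_offl (C : Coef L p O W) (hv : v ∉ Sg) (k : L.Kf) :
    C.act ⟨offl v k.1, offl_mem hv k.2⟩ = C.act k := by
  have hk : k = ⟨offl v k.1, offl_mem hv k.2⟩ * ⟨inc n v (k.1.1 v), inc_mem L hv (L.le k.1 k.2 v)⟩ :=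
    Subtype.ext (offl_mul v k.1).symm
  conv_rhs => rw [hk, map_mul]
  rw [C.unr v hv _ (L.le k.1 k.2 v), mul_one]

/-- the Hecke operator on the module of functions -/
noncomputable def Coef.heckeFn (C : Coef L p O W) (v : Pl F) (hv : v ∉ Sg)
    (x : LG n v) : C.Fn →ₗ[O] C.Fn where
  toFun f := ⟨hecke v x f.1, fun g k => by
    rw [hecke_shift (Fn_RU C hv f) x k.1 (L.le k.1 k.2 v) g]
    have h1 : (fun g => f.1 (g * offl v k.1)) = fun g => (C.act k⁻¹).toAddMonoidHom (f.1 g) := by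
      funext g
      rw [f.2 g ⟨offl v k.1, offl_mem hv k.2⟩]
      have h2 : C.act (⟨offl v k.1, offl_mem hv k.2⟩ : L.Kf)⁻¹ = C.act k⁻¹ := by
        have h3 := act_offl C hv k
        have h4 : ∀ a b : L.Kf, C.act a = C.act b → C.act a⁻¹ = C.act b⁻¹ := by
          intro a b hab
          have e1 : C.act a⁻¹ * C.act a = 1 := by rw [← map_mul, inv_mul_cancel, map_one]
          have e2 : C.act b * C.act b⁻¹ = 1 := by rw [← map_mul, mul_inv_cancel, map_one]
          calc C.act a⁻¹ = C.act a⁻¹ * (C.act b * C.act b⁻¹) := by rw [e2, mul_one]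
            _ = (C.act a⁻¹ * C.act a) * C.act b⁻¹ := by rw [hab, mul_assoc]
            _ = _ := by rw [e1, one_mul]
        exact h4 _ _ h3
      rw [h2]
      rfl
    rw [h1, hecke_map]
    rfl⟩
  map_add' f f' := by
    apply Subtype.ext
    funext g
    exact hecke_add f.1 f'.1 x g
  map_smul' c f := by
    apply Subtype.ext
    funext g
    exact hecke_map (DistribSMul.toAddMonoidHom W c) f.1 x g

lemma heckeFn_apply (C : Coef L p O W) (hv : v ∉ Sg)
    (x : LG n v) (f : C.Fn) (g : AG n F) : (C.heckeFn v hv x f).1 g = hecke v x f.1 g := rfl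

/-- the Hecke operator as an endomorphism of the representation -/
noncomputable def Coef.heckeRep (C : Coef L p O W) (v : Pl F) (hv : v ∉ Sg)
    (x : LG n v) : Rep.of C.rep ⟶ Rep.of C.rep :=
  Rep.ofHom (LinearMap.intertwiningMap_of_isIntertwiningMap C.rep C.rep (C.heckeFn v hv x)
    fun γ f => by
      apply Subtype.ext
      funext g
      exact hecke_left f.1 x (dg n γ)⁻¹ g)

end

end Pool.Agent.L0h47.NF
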