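import Pool.Agent.L0h47.NF.Loc

/-!
# The finite adelic points of `GL_n` over a number field, levels, coefficients, Hecke operators
-/

set_option autoImplicit false

namespace Pool.Agent.L0h47.NF

open Matrix NumberField IsDedekindDomain
open scoped WithZero

variable (n : ℕ) {F : Type} [Field F] [NumberField F]

/-- `GL_n(F_v)` -/
abbrev LG (v : Pl F) := GL (Fin n) (Kv v)

variable {n} in
/-- all entries are bounded -/
def Bd {v : Pl F} (A : Matrix (Fin n) (Fin n) (Kv v)) (c : ℤᵐ⁰) : Prop := ∀ i j, vv v (A i j) ≤ c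

section
variable {n} {v : Pl F}

lemma Bd.mul {A B : Matrix (Fin n) (Fin n) (Kv v)} {c d : ℤᵐ⁰} (hA : Bd A c) (hB : Bd B d) :
    Bd (A * B) (c * d) := by
  intro i j
  rw [Matrix.mul_apply]
  apply Valuation.map_sum_le
  intro k _
  rw [map_mul]
  exact mul_le_mul' (hA i k) (hB k j)

lemma Bd.add {A B : Matrix (Fin n) (Fin n) (Kv v)} {c : ℤᵐ⁰} (hA : Bd A c) (hB : Bd B c) :
    Bd (A + B) c := by
  intro i j
  exact (Valuation.map_add _ _ _).trans (max_le (hA i j) (hB i j))

lemma Bd.neg {A : Matrix (Fin n) (Fin n) (Kv v)} {c : ℤᵐ⁰} (hA : Bd A c) : Bd (-A) c := by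
  intro i j
  rw [Matrix.neg_apply, Valuation.map_neg]
  exact hA i j

lemma Bd.sub {A B : Matrix (Fin n) (Fin n) (Kv v)} {c : ℤᵐ⁰} (hA : Bd A c) (hB : Bd B c) :
    Bd (A - B) c := by
  rw [sub_eq_add_neg]; exact hA.add hB.neg

lemma Bd.mono {A : Matrix (Fin n) (Fin n) (Kv v)} {c d : ℤᵐ⁰} (hA : Bd A c) (h : c ≤ d) :
    Bd A d := fun i j => (hA i j).trans h

lemma Bd.one : Bd (1 : Matrix (Fin n) (Fin n) (Kv v)) 1 := by
  intro i j
  rw [Matrix.one_apply]
  split_ifs
  · rw [map_one]
  · rw [map_zero]; exact zero_le_one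

end

/-- `GL_n(O_v)`: the matrices `g` such that all entries of `g` and of `g⁻¹` are integral. -/
def U (v : Pl F) : Subgroup (LG n v) where
  carrier := {g | Bd g.1 1 ∧ Bd (g⁻¹).1 1}
  one_mem' := ⟨Bd.one, by rw [inv_one]; exact Bd.one⟩
  mul_mem' := by
    rintro a b ⟨ha, ha'⟩ ⟨hb, hb'⟩
    refine ⟨?_, ?_⟩
    · have := ha.mul hb
      rw [one_mul] at this
      rw [Units.val_mul]; exact this
    · have := hb'.mul ha'
      rw [one_mul] at this
      rw [_root_.mul_inv_rev, Units.val_mul]; exact this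
  inv_mem' := by
    rintro a ⟨ha, ha'⟩
    exact ⟨ha', by rw [inv_inv]; exact ha⟩

/-- the principal congruence subgroup of level `N` of `GL_n(O_v)` -/
def Cg (v : Pl F) (N : ℕ) : Subgroup (LG n v) where
  carrier := {g | g ∈ U n v ∧ Bd (g.1 - 1) (vv v ((N : ℕ) : Kv v))}
  one_mem' := by
    refine ⟨one_mem _, ?_⟩
    intro i j
    simp only [Units.val_one, sub_self, Matrix.zero_apply, map_zero]
    exact bot_le
  mul_mem' := by
    rintro a b ⟨ha, ha'⟩ ⟨hb, hb'⟩
    refine ⟨mul_mem ha hb, ?_⟩
    have h : (a * b).1 - 1 = a.1 * (b.1 - 1) + (a.1 - 1) := by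
      rw [Units.val_mul, Matrix.mul_sub, Matrix.mul_one]; abel
    rw [h]
    apply Bd.add _ ha'
    have := Bd.mul ha.1 hb'
    rwa [one_mul] at this
  inv_mem' := by
    rintro a ⟨ha, ha'⟩
    refine ⟨inv_mem ha, ?_⟩
    have h : (a⁻¹).1 - 1 = -((a⁻¹).1 * (a.1 - 1)) := by
      rw [Matrix.mul_sub, Matrix.mul_one, ← Units.val_mul, inv_mul_cancel, Units.val_one]; abel
    rw [h]
    apply Bd.neg
    have := Bd.mul ha.2 ha'
    rwa [one_mul] at this

variable (F) in
/-- `GL_n(A_f)`, `A_f` the finite adeles of `F`: families of elements of `GL_n(F_v)` almost all of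
which lie in `GL_n(O_v)`. -/
def AG : Subgroup (∀ v : Pl F, LG n v) where
  carrier := {g | {v | g v ∉ U n v}.Finite}
  one_mem' := by
    have h : {v | (1 : ∀ v : Pl F, LG n v) v ∉ U n v} = ∅ := by
      apply Set.eq_empty_of_forall_notMem
      intro v hv
      exact hv (one_mem _)
    show {v | (1 : ∀ v : Pl F, LG n v) v ∉ U n v}.Finite
    rw [h]
    exact Set.finite_empty
  mul_mem' := by
    intro a b ha hb
    apply (Set.Finite.union ha hb).subset
    intro v hv
    by_contra h
    simp only [Set.mem_union, Set.mem_ofPred_eq, not_or, not_not] at h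
    exact hv (mul_mem h.1 h.2)
  inv_mem' := by
    intro a ha
    apply Set.Finite.subset ha
    intro v hv h
    exact hv (inv_mem h)

variable (F) in
/-- The elements of `GL_n(F)` with totally positive determinant. -/
def GQ : Subgroup (GL (Fin n) F) where
  carrier := {γ | ∀ φ : F →+* ℝ, 0 < φ γ.1.det}
  one_mem' := by
    intro φ
    rw [Units.val_one, Matrix.det_one, map_one]
    exact one_pos
  mul_mem' := by
    intro a b ha hb φ
    rw [Units.val_mul, Matrix.det_mul, map_mul]
    exact mul_pos (ha φ) (hb φ)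
  inv_mem' := by
    intro a ha φ
    have h : φ (a⁻¹).1.det * φ a.1.det = 1 := by
      rw [← map_mul, ← Matrix.det_mul, ← Units.val_mul, inv_mul_cancel, Units.val_one,
        Matrix.det_one, map_one]
    by_contra hcon
    rw [not_lt] at hcon
    have := mul_nonpos_of_nonpos_of_nonneg hcon (ha φ).le
    rw [h] at this
    exact absurd this (by norm_num)

/-- The image of a matrix over `F` in `GL_n(F_v)`. -/
noncomputable def loc (v : Pl F) : GL (Fin n) F →* LG n v :=
  Matrix.GeneralLinearGroup.map (cst v)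

/-- The diagonal embedding in `GL_n(A_f)`. -/
noncomputable def dg : GQ n F →* AG n F where
  toFun γ := ⟨fun v => loc n v γ.1, by
    have h : {v : Pl F | loc n v γ.1 ∉ U n v} ⊆
        (⋃ i, ⋃ j, {v : Pl F | ¬ vv v (cst v (γ.1.1 i j)) ≤ 1}) ∪
        (⋃ i, ⋃ j, {v : Pl F | ¬ vv v (cst v ((γ.1⁻¹).1 i j)) ≤ 1}) := by
      intro v hv
      by_contra hcon
      simp only [Set.mem_union, Set.mem_iUnion, not_or, not_exists, Set.mem_ofPred_eq,
        not_not] at hcon
      apply hv
      refine ⟨hcon.1, ?_⟩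
      rw [← map_inv]
      exact hcon.2
    exact Set.Finite.subset ((Set.finite_iUnion fun i => Set.finite_iUnion fun j => finite_bad _).union
      (Set.finite_iUnion fun i => Set.finite_iUnion fun j => finite_bad _)) h⟩
  map_one' := by
    apply Subtype.ext
    funext v
    exact map_one _
  map_mul' a b := by
    apply Subtype.ext
    funext v
    exact map_mul _ _ _

open Classical in
/-- The embedding of `GL_n(F_v)` in `GL_n(A_f)`. -/
noncomputable def inc (v : Pl F) : LG n v →* AG n F where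
  toFun x := ⟨Pi.mulSingle v x, by
    apply (Set.finite_singleton v).subset
    intro m hm
    by_contra h
    apply hm
    rw [Pi.mulSingle_eq_of_ne (fun e => h (by rw [e]; exact Set.mem_singleton _))]
    exact one_mem _⟩
  map_one' := by
    apply Subtype.ext
    exact Pi.mulSingle_one v
  map_mul' a b := by
    apply Subtype.ext
    exact Pi.mulSingle_mul v a b

variable (F) in
/-- The principal congruence subgroup of level `N` of `GL_n(A_f)`. -/
def KN (N : ℕ) : Subgroup (AG n F) where
  carrier := {g | ∀ v : Pl F, g.1 v ∈ Cg n v N}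
  one_mem' _ := one_mem _
  mul_mem' ha hb v := mul_mem (ha v) (hb v)
  inv_mem' ha v := inv_mem (ha v)

/-- A level: a compact open subgroup `K_f` of `∏ GL_n(O_v)` that contains `GL_n(O_v)` for the `v`
outside of the finite set `Sg`. -/
structure Level (Sg : Finset (Pl F)) where
  /-- the compact open subgroup -/
  Kf : Subgroup (AG n F)
  le : ∀ κ ∈ Kf, ∀ v, κ.1 v ∈ U n v
  isOpen : ∃ N : ℕ, N ≠ 0 ∧ KN n F N ≤ Kf
  full : ∀ v, v ∉ Sg → ∀ u ∈ U n v, inc n v u ∈ Kf

variable {n} {Sg : Finset (Pl F)}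

/-- A coefficient module: an `O`-module `W` with a smooth `O`-linear action of `K_f` that factors
through the places in `Sg`, killed by a power of `p`. -/
structure Coef (L : Level n Sg) (p : ℕ) (O : Type) [CommRing O] (W : Type) [AddCommGroup W]
    [Module O W] where
  /-- the action of `K_f` -/
  act : Representation O L.Kf W
  smooth : ∃ N : ℕ, N ≠ 0 ∧ ∀ κ : L.Kf, κ.1 ∈ KN n F N → act κ = 1
  unr : ∀ v, (hv : v ∉ Sg) → ∀ u, (hu : u ∈ U n v) → act ⟨inc n v u, L.full v hv u hu⟩ = 1
  tors : ∃ r : ℕ, ∀ w : W, (p ^ r) • w = 0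

variable {L : Level n Sg} {p : ℕ} {O : Type} [CommRing O] {W : Type} [AddCommGroup W] [Module O W]

/-- The module of the functions `f : GL_n(A_f) → W` with `f (g k) = k⁻¹ f(g)` for `k` in `K_f`. -/
def Coef.Fn (C : Coef L p O W) : Submodule O (AG n F → W) where
  carrier := {f | ∀ (g : AG n F) (k : L.Kf), f (g * k.1) = C.act k⁻¹ (f g)}
  add_mem' := by
    intro f f' h h' g k
    rw [Pi.add_apply, Pi.add_apply, h, h', map_add]
  zero_mem' := by
    intro g k
    simp
  smul_mem' := by
    intro c f h g k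
    rw [Pi.smul_apply, Pi.smul_apply, h, map_smul]

/-- The representation by left translations. -/
noncomputable def Coef.rep (C : Coef L p O W) : Representation O (GQ n F) C.Fn where
  toFun γ :=
    { toFun f := ⟨fun g => f.1 ((dg n γ)⁻¹ * g), fun g k => by
        show f.1 ((dg n γ)⁻¹ * (g * k.1)) = _
        rw [← mul_assoc]; exact f.2 _ k⟩
      map_add' f f' := rfl
      map_smul' c f := rfl }
  map_one' := by
    apply LinearMap.ext
    intro f
    apply Subtype.ext
    funext g
    show f.1 ((dg n 1)⁻¹ * g) = f.1 g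
    rw [map_one, inv_one, one_mul]
  map_mul' a b := by
    apply LinearMap.ext
    intro f
    apply Subtype.ext
    funext g
    show f.1 ((dg n (a * b))⁻¹ * g) = f.1 ((dg n b)⁻¹ * ((dg n a)⁻¹ * g))
    rw [map_mul, _root_.mul_inv_rev, mul_assoc]

/-- The cosets `y GL_n(O_v)` contained in the double coset `GL_n(O_v) x GL_n(O_v)`. -/
abbrev HC (n : ℕ) (v : Pl F) (x : LG n v) : Type :=
  {c : LG n v ⧸ U n v // ∃ u ∈ U n v, c = ((u * x : LG n v) : LG n v ⧸ U n v)}

/-- The Hecke operator of the double coset of `x` on functions: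
`(T f)(g) = ∑ f (g y)`, the sum over the cosets `y GL_n(O_v)` in the double coset. -/
noncomputable def hecke (v : Pl F) (x : LG n v) (f : AG n F → W) (g : AG n F) : W :=
  ∑ᶠ c : HC n v x, f (g * inc n v c.1.out)

end Pool.Agent.L0h47.NF
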