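import Pool.Agent.L0h47.NF.M.APX
import Pool.Agent.L0h47.NF.M.SA
import Pool.Agent.L0h47.NF.M.IDT
import Pool.Agent.L0h47.NF.M.RPC
import Pool.Agent.L0h47.NF.M.COB
import Pool.Agent.L0h47.NF.M.SCF
import Pool.Agent.L0h47.NF.M.C1b
import Pool.Agent.L0h47.NF.M.DEG2
import Pool.Agent.L0h47.NF.M.HST
import Pool.Agent.L0h47.NF.M.PRF
import Pool.Agent.L0h47.NF.M.SMC
import Pool.Agent.L0h47.NF.M.TJ0
import Pool.Agent.L0h47.NF.M.TJZ
import Pool.Agent.L0h47.NF.M.TJK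
import Pool.Agent.L0h47.NF.M.LOW
import Pool.Agent.L0h47.NF.M.SAT
import Pool.Agent.L0h47.NF.M.EIG
import Pool.Agent.L0h47.NF.M.GAL
import Pool.Agent.L0h47.NF.M.RTH
import Pool.Agent.L0h47.NF.M.FIN

/-!
# Assembly
-/

set_option autoImplicit false

namespace Pool.Agent.L0h47.NF

theorem tj (h1 : S_IDT) (h2 : S_RPC) (h3 : S_PRF) (h4 : S_HST) : S_TJ := by
  intro n F _ _ Sg L p O _ W _ _ C v j hn hp hj
  exact ⟨tj0 h1 h2 n F Sg L p O W C v j hn hp hj, tjz h4 h2 n F Sg L p O W C v j hn hp hj,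
    tjk h1 h2 h3 n F Sg L p O W C v j hn hp hj⟩

theorem final (hC1 : S_C1) (hDEG : S_DEG) : S_FIN := by
  have hSA : S_SA := sa apx
  have hIDT : S_IDT := idt hSA
  have hHST : S_HST := hst hSA hC1 cob
  have hTJ : S_TJ := tj hIDT rpc prf hHST
  exact fin (eig smc hTJ (low smc) hDEG sat) gal rth

theorem fin_main : S_FIN := final (c1b scf) deg2

end Pool.Agent.L0h47.NF
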