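import Pool.Agent.L0h47.NF.M.DEG2
import Pool.Agent.L0h47.NF.V.DSM
import Pool.Agent.L0h47.NF.V.DCL
import Pool.Agent.L0h47.NF.V.DNT
import Pool.Agent.L0h47.NF.V.DTR
import Pool.Agent.L0h47.NF.V.DIR
import Pool.Agent.L0h47.NF.V.NRM
import Pool.Agent.L0h47.NF.V.ROW
import Pool.Agent.L0h47.NF.V.TOR
import Pool.Agent.L0h47.NF.V.C12
import Pool.Agent.L0h47.NF.V.HS2
import Pool.Agent.L0h47.NF.V.PR2
import Pool.Agent.L0h47.NF.V.TJ2
import Pool.Agent.L0h47.NF.V.EI2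
import Pool.Agent.L0h47.NF.V.FI2

/-!
# Assembly for `GL_2`
-/

set_option autoImplicit false

namespace Pool.Agent.L0h47.NF

theorem fin2_main : S_FI2 :=
  fi2 (ei2 (tj2 pr2) deg2) (c12 (tor (row (dir (dcl dsm dnt dtr)) nrm))) hs2

end Pool.Agent.L0h47.NF
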