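import Mathlib

/-!
# The completions of a number field
-/

set_option autoImplicit false

namespace Pool.Agent.L0h47.NF

open Matrix NumberField IsDedekindDomain
open scoped WithZero

/-- the finite places -/
abbrev Pl (F : Type) [Field F] [NumberField F] : Type := HeightOneSpectrum (𝓞 F)

variable {F : Type} [Field F] [NumberField F]

/-- the completion -/
abbrev Kv (v : Pl F) : Type := v.adicCompletion F

/-- the valuation -/
noncomputable abbrev vv (v : Pl F) : Valuation (Kv v) ℤᵐ⁰ := Valued.v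

/-- the embedding -/
noncomputable abbrev cst (v : Pl F) : F →+* Kv v := algebraMap F (Kv v)

lemma vv_cst (v : Pl F) (x : F) : vv v (cst v x) = v.valuation F x :=
  HeightOneSpectrum.valuedAdicCompletion_eq_valuation' v x

lemma vv_int (v : Pl F) (x : 𝓞 F) : vv v (cst v x) ≤ 1 := by
  rw [vv_cst]
  exact v.valuation_le_one x

lemma vv_nat_le (v : Pl F) (N : ℕ) : vv v ((N : ℕ) : Kv v) ≤ 1 := by
  have := vv_int v ((N : ℕ) : 𝓞 F)
  simpa using this

lemma vv_nat_ne (v : Pl F) {N : ℕ} (hN : N ≠ 0) : vv v ((N : ℕ) : Kv v) ≠ 0 := by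
  rw [Valuation.ne_zero_iff]
  have h : ((N : ℕ) : Kv v) = cst v ((N : ℕ) : F) := by simp
  rw [h]
  intro h0
  have : ((N : ℕ) : F) = 0 := (map_eq_zero (cst v)).1 h0
  exact hN (by exact_mod_cast this)

lemma finite_bad (x : F) : {v : Pl F | ¬ vv v (cst v x) ≤ 1}.Finite := by
  have h := HeightOneSpectrum.Support.finite (𝓞 F) x
  refine h.subset ?_
  intro v hv
  simp only [Set.mem_ofPred_eq, not_le] at hv
  rw [vv_cst] at hv
  exact hv

lemma vv_nat_mul (v : Pl F) (M N : ℕ) :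
    vv v ((M * N : ℕ) : Kv v) = vv v ((M : ℕ) : Kv v) * vv v ((N : ℕ) : Kv v) := by
  rw [Nat.cast_mul, map_mul]

lemma vv_nat_dvd (v : Pl F) {M N : ℕ} (h : M ∣ N) :
    vv v ((N : ℕ) : Kv v) ≤ vv v ((M : ℕ) : Kv v) := by
  obtain ⟨c, rfl⟩ := h
  rw [vv_nat_mul]
  exact mul_le_of_le_one_right' (vv_nat_le v c)

lemma finite_nat {N : ℕ} (hN : N ≠ 0) : {v : Pl F | vv v ((N : ℕ) : Kv v) ≠ 1}.Finite := by
  refine (finite_bad (((N : ℕ) : F)⁻¹)).subset ?_
  intro v hv h
  apply hv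
  apply le_antisymm (vv_nat_le v N)
  have e : cst v (((N : ℕ) : F)⁻¹) = (((N : ℕ) : Kv v))⁻¹ := by simp
  rw [e, map_inv₀] at h
  have h1 := vv_nat_ne v hN
  rwa [inv_le_one₀ (zero_lt_iff.2 h1)] at h

/-- a natural number that is small at `v` -/
lemma exists_nat_small (v : Pl F) {γ : ℤᵐ⁰} (hγ : γ ≠ 0) :
    ∃ m : ℕ, m ≠ 0 ∧ vv v ((m : ℕ) : Kv v) ≤ γ := by
  have hm0 : Ideal.absNorm v.asIdeal ≠ 0 := by
    rw [Ne, Ideal.absNorm_eq_zero_iff]
    exact v.ne_bot
  have hlt : vv v ((Ideal.absNorm v.asIdeal : ℕ) : Kv v) < 1 := by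
    have h1 : (algebraMap (𝓞 F) F ((Ideal.absNorm v.asIdeal : ℕ) : 𝓞 F)) =
        ((Ideal.absNorm v.asIdeal : ℕ) : F) := by simp
    have h2 : ((Ideal.absNorm v.asIdeal : ℕ) : Kv v) =
        cst v (algebraMap (𝓞 F) F ((Ideal.absNorm v.asIdeal : ℕ) : 𝓞 F)) := by
      rw [h1]; simp
    rw [h2, vv_cst, HeightOneSpectrum.valuation_lt_one_iff_mem]
    exact Ideal.absNorm_mem v.asIdeal
  obtain ⟨k, hk⟩ : ∃ k : ℕ, vv v ((Ideal.absNorm v.asIdeal : ℕ) : Kv v) ^ k ≤ γ := by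
    set a := vv v ((Ideal.absNorm v.asIdeal : ℕ) : Kv v) with ha
    have ha0 : a ≠ 0 := vv_nat_ne v hm0
    refine ⟨(-(WithZero.log γ)).toNat, ?_⟩
    have hla : WithZero.log a < 0 := by
      rw [← WithZero.exp_log ha0, ← WithZero.exp_zero, WithZero.exp_lt_exp] at hlt
      exact hlt
    have h5 : WithZero.exp (((-(WithZero.log γ)).toNat : ℤ) * WithZero.log a) ≤
        WithZero.exp (WithZero.log γ) → a ^ (-(WithZero.log γ)).toNat ≤ γ := by
      intro h
      rw [WithZero.exp_log hγ] at h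
      rw [← nsmul_eq_mul, WithZero.exp_nsmul, WithZero.exp_log ha0] at h
      exact h
    apply h5
    rw [WithZero.exp_le_exp]
    have h3 : -(WithZero.log γ) ≤ ((-(WithZero.log γ)).toNat : ℤ) := Int.self_le_toNat _
    have h4 : (0 : ℤ) ≤ ((-(WithZero.log γ)).toNat : ℤ) := Int.natCast_nonneg _
    nlinarith
  refine ⟨(Ideal.absNorm v.asIdeal) ^ k, pow_ne_zero _ hm0, ?_⟩
  push_cast
  rw [map_pow]
  exact hk

lemma dense_cst (v : Pl F) (c : Kv v) {γ : ℤᵐ⁰} (hγ : γ ≠ 0) :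
    ∃ x : F, vv v (cst v x - c) ≤ γ := by
  have h := HeightOneSpectrum.denseRange_algebraMap (K := F) (v := v)
  obtain ⟨t, ht⟩ := v.valuedAdicCompletion_surjective F γ
  have ht0 : t ≠ 0 := by
    rintro rfl
    rw [map_zero] at ht
    exact hγ ht.symm
  have hopen0 : IsOpen {y : Kv v | Valued.v y ≤ γ} := by
    have h1 := Valued.isOpen_closedBall (R := Kv v) (r := (Valued.v (R := Kv v)).restrict t) (by
      intro h0
      apply ht0
      exact (map_eq_zero _).1 h0)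
    have h2 : {y : Kv v | Valued.v y ≤ γ} =
        {y : Kv v | (Valued.v (R := Kv v)).restrict y ≤ (Valued.v (R := Kv v)).restrict t} := by
      ext y
      simp only [Set.mem_ofPred_eq]
      rw [← ht]
      exact (Valuation.restrict_le_iff _).symm
    rw [h2]
    exact h1
  have hopen : IsOpen {y : Kv v | Valued.v (y - c) ≤ γ} :=
    hopen0.preimage (continuous_sub_right c)
  obtain ⟨x, hx⟩ := h.exists_mem_open hopen ⟨c, by simp⟩
  exact ⟨x, hx⟩

end Pool.Agent.L0h47.NF
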