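import Pool.Agent.L0h47.NF.Stmt
import Pool.Agent.L0h47.CG.Elem

/-!
# Statements of the modules of the project NF
-/

set_option autoImplicit false

namespace Pool.Agent.L0h47.NF

open Matrix NumberField IsDedekindDomain
open scoped WithZero
open Pool.Agent.L0h47.CG (tvr Ele EV ele_top mtr mtr_mul mtr_one mtr_inj)

variable {n : ℕ} {F : Type} [Field F] [NumberField F] {A : Type}

/-- special linear matrices over `F` as elements of `GQ` -/
noncomputable def sQ : SpecialLinearGroup (Fin n) F →* GQ n F where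
  toFun B := ⟨SpecialLinearGroup.toGL B, by
    intro φ
    show 0 < φ (Matrix.det B.1)
    rw [B.2, map_one]
    exact one_pos⟩
  map_one' := by
    apply Subtype.ext
    exact map_one _
  map_mul' a b := by
    apply Subtype.ext
    exact map_mul _ _ _

/-- locally constant functions -/
def LC (f : AG n F → A) : Prop :=
  ∀ g, ∃ N : ℕ, N ≠ 0 ∧ ∀ κ ∈ KN n F N, f (g * κ) = f g

/-- the same local determinants -/
def SameDet (g g' : AG n F) : Prop := ∀ v, (g.1 v).1.det = (g'.1 v).1.det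

/-- one-cocycles with values in the functions on the adelic matrices -/
def IsCoc [AddCommGroup A] (c : GQ n F → AG n F → A) : Prop :=
  ∀ γ δ x, c (γ * δ) x = c γ x + c δ ((dg n γ)⁻¹ * x)

/-- the coboundary of a function -/
noncomputable def dF [AddCommGroup A] (f : AG n F → A) (γ : GQ n F) (x : AG n F) : A :=
  f ((dg n γ)⁻¹ * x) - f x

/-- the adelic matrix with component `diag(ϖ, 1, …, 1)` at `v` -/
noncomputable def sft (n : ℕ) (v : Pl F) : AG n F := inc n v (td n v 1)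

/-- the degree of a Hecke operator -/
noncomputable def deg (n : ℕ) (v : Pl F) (j : ℕ) : ℕ := Nat.card (HC n v (td n v j))

/-- APX: approximation at one place -/
def S_APX : Prop := ∀ (F : Type) [Field F] [NumberField F] (v : Pl F) (c : Kv v) (N : ℕ), N ≠ 0 →
  ∃ q : F, vv v (cst v q - c) ≤ vv v ((N : ℕ) : Kv v) ∧
    ∀ w : Pl F, w ≠ v → vv w (cst w q) ≤ vv w ((N : ℕ) : Kv w)

/-- SA: strong approximation -/
def S_SA : Prop := ∀ (n : ℕ) (F : Type) [Field F] [NumberField F] (g : AG n F),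
  (∀ v, (g.1 v).1.det = 1) → ∀ N : ℕ, N ≠ 0 →
    ∃ δ : SpecialLinearGroup (Fin n) F, (dg n (sQ δ))⁻¹ * g ∈ KN n F N

/-- IDT: left invariant locally constant functions depend only on the determinants -/
def S_IDT : Prop := ∀ (n : ℕ) (F : Type) [Field F] [NumberField F] (A : Type) (Φ : AG n F → A),
  (∀ γ g, Φ (dg n γ * g) = Φ g) → LC Φ → ∀ g g', SameDet g g' → Φ g = Φ g'

/-- RPC: representatives of the cosets with the same determinant -/
def S_RPC : Prop := ∀ (n : ℕ) (F : Type) [Field F] [NumberField F] (v : Pl F) (j : ℕ), 1 ≤ n →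
  j ≤ n → ∀ c : HC n v (td n v j), ∃ y : LG n v, ((y : LG n v) : LG n v ⧸ U n v) = c.1 ∧
    y.1.det = (unif v) ^ j

/-- COB: cocycles that vanish on small stabilisers are coboundaries of locally constant functions -/
def S_COB : Prop := ∀ (n : ℕ) (F : Type) [Field F] [NumberField F] (A : Type) [AddCommGroup A]
  (c : GQ n F → AG n F → A), IsCoc c → ∀ N : ℕ, N ≠ 0 →
  (∀ γ x, ∀ κ ∈ KN n F N, c γ (x * κ) = c γ x) →
  (∀ r : AG n F, ∃ M : ℕ, M ≠ 0 ∧ ∀ γ : GQ n F, r⁻¹ * dg n γ * r ∈ KN n F M → c γ r = 0) →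
  ∃ f : AG n F → A, LC f ∧ ∀ γ x, c γ x = dF f γ x

/-- the normal closure of the elementary matrices with off-diagonal entry divisible by `M` -/
noncomputable def NE (n : ℕ) (R : Type) [CommRing R] (M : R) : Subgroup (GL (Fin n) R) :=
  Subgroup.normalClosure {g | ∃ (i j : Fin n) (h : i ≠ j) (t : R),
    g = SpecialLinearGroup.toGL (tvr i j h (M * t))}

/-- SCF: elementary matrices commute with congruence matrices modulo `NE` -/
def S_SCF : Prop := ∀ (R : Type) [CommRing R] [IsDomain R] [IsDedekindDomain R] (n : ℕ), 3 ≤ n →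
  ∀ M : R, M ≠ 0 → ¬ IsUnit M → ∀ B : GL (Fin n) R,
  (∀ i j, M ∣ B.1 i j - (1 : Matrix (Fin n) (Fin n) R) i j) → ∀ e ∈ Ele n R,
    SpecialLinearGroup.toGL e * B * (SpecialLinearGroup.toGL e)⁻¹ * B⁻¹ ∈ NE n R M

/-- C1: homomorphisms from congruence subgroups to torsion groups are invariant under conjugation by
`SL_n(F)` on a deeper congruence subgroup -/
def S_C1 : Prop := ∀ (n : ℕ) (F : Type) [Field F] [NumberField F] (A : Type) [AddCommGroup A],
  3 ≤ n → ∀ w : ℕ, w ≠ 0 → (∀ a : A, w • a = 0) → ∀ N : ℕ, N ≠ 0 → ∀ φ : GQ n F → A,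
  (∀ γ γ', dg n γ ∈ KN n F N → dg n γ' ∈ KN n F N → φ (γ * γ') = φ γ + φ γ') →
  ∀ δ : SpecialLinearGroup (Fin n) F, ∃ M : ℕ, M ≠ 0 ∧
    ∀ γ, dg n γ ∈ KN n F M → φ ((sQ δ)⁻¹ * γ * sQ δ) = φ γ

/-- HST: translates of a cocycle by adelic matrices with the same determinants differ by a
coboundary of a locally constant function -/
def S_HST : Prop := ∀ (n : ℕ) (F : Type) [Field F] [NumberField F] (A : Type) [AddCommGroup A],
  3 ≤ n → ∀ w : ℕ, w ≠ 0 → (∀ a : A, w • a = 0) → ∀ c : GQ n F → AG n F → A, IsCoc c →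
  ∀ N : ℕ, N ≠ 0 → (∀ γ x, ∀ κ ∈ KN n F N, c γ (x * κ) = c γ x) →
  ∀ y y' : AG n F, SameDet y y' →
  ∃ f : AG n F → A, LC f ∧ ∀ γ x, c γ (x * y) - c γ (x * y') = dF f γ x

/-- PRF: `SL_n(O_v)` is perfect -/
def S_PRF : Prop := ∀ (n : ℕ) (F : Type) [Field F] [NumberField F] (v : Pl F) (A : Type)
  [AddCommGroup A], 3 ≤ n → ∀ ψ : LG n v → A,
  (∀ u ∈ U n v, ∀ u' ∈ U n v, u.1.det = 1 → u'.1.det = 1 → ψ (u * u') = ψ u + ψ u') →
  ∀ u ∈ U n v, u.1.det = 1 → ψ u = 0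

section
variable {Sg : Finset (Pl F)} {L : Level n Sg} {p : ℕ} {O : Type} [CommRing O] {W : Type}
  [AddCommGroup W] [Module O W]

/-- the Hecke algebra acting on functions -/
noncomputable def opF (C : Coef L p O W) : FreeAlgebra O (HI n Sg) →ₐ[O] Module.End O C.Fn :=
  FreeAlgebra.lift O (fun a : HI n Sg => C.heckeFn a.1.1 a.1.2 a.2)

/-- the operator `P` behaves like `D` times the translation by the `e`-th power of `sft` -/
structure Sem (C : Coef L p O W) (v : Pl F) (P : FreeAlgebra O (HI n Sg)) (D : ℤ) (e : ℕ) :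
    Prop where
  h0 : ∀ f : C.Fn, (∀ γ g, f.1 (dg n γ * g) = f.1 g) →
    ∀ g, (opF C P f).1 g = D • f.1 (g * sft n v ^ e)
  z : ∀ c : GQ n F → C.Fn, IsCoc (fun γ => (c γ).1) →
    ∃ f : AG n F → W, LC f ∧ ∀ γ x, (opF C P (c γ)).1 x - D • (c γ).1 (x * sft n v ^ e) = dF f γ x
  k : ∀ f : AG n F → W, LC f → ∀ c : GQ n F → C.Fn, (∀ γ x, (c γ).1 x = dF f γ x) →
    ∃ f' : AG n F → W, LC f' ∧ (∀ γ x, (opF C P (c γ)).1 x = dF f' γ x) ∧
      ∀ (κ : L.Kf) (g : AG n F), C.act κ (f' (g * κ.1)) - f' g =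
        D • (C.act κ (f (g * sft n v ^ e * κ.1)) - f (g * sft n v ^ e))

end

/-- SMC: products and integral combinations -/
def S_SMC : Prop := ∀ (n : ℕ) (F : Type) [Field F] [NumberField F] (Sg : Finset (Pl F))
  (L : Level n Sg) (p : ℕ) (O : Type) [CommRing O] (W : Type) [AddCommGroup W] [Module O W]
  (C : Coef L p O W) (v : Pl F),
  (∀ P D e P' D' e', Sem C v P D e → Sem C v P' D' e' → Sem C v (P * P') (D * D') (e + e')) ∧
  (∀ P D P' D' e (a b : ℤ), Sem C v P D e → Sem C v P' D' e →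
    Sem C v (a • P + b • P') (a * D + b * D') e) ∧
  Sem C v 1 1 0

/-- TJ: the Hecke operators `T_j` -/
def S_TJ : Prop := ∀ (n : ℕ) (F : Type) [Field F] [NumberField F] (Sg : Finset (Pl F))
  (L : Level n Sg) (p : ℕ) (O : Type) [CommRing O] (W : Type) [AddCommGroup W] [Module O W]
  (C : Coef L p O W) (v : {v : Pl F // v ∉ Sg}) (j : ℕ), 3 ≤ n → p ≠ 0 → j ≤ n →
  Sem C v.1 (FreeAlgebra.ι O ⟨v, td n v.1 j⟩) (deg n v.1 j) j

/-- LOW: from functions to cohomology -/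
def S_LOW : Prop := ∀ (n : ℕ) (F : Type) [Field F] [NumberField F] (Sg : Finset (Pl F))
  (L : Level n Sg) (p : ℕ) (O : Type) [CommRing O] (W : Type) [AddCommGroup W] [Module O W]
  (C : Coef L p O W) (v : Pl F) (P : FreeAlgebra O (HI n Sg)) (D : ℤ) (e : ℕ), (p : ℤ) ∣ D →
  Sem C v P D e → ∀ i : ℕ, i < 2 → ∀ (k : Type) [Field k] [Algebra O k]
  (θ : FreeAlgebra O (HI n Sg) →ₐ[O] k), C.LocNe i θ → θ P = 0

/-- DEG: the degree of the Hecke operators modulo `p` -/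
def S_DEG : Prop := ∀ (n : ℕ) (F : Type) [Field F] [NumberField F] (v : Pl F) (p j : ℕ), p.Prime →
  j ≤ n → (p : ℤ) ∣ (qv v : ℤ) - 1 → deg n v j ≡ n.choose j [MOD p]

/-- SAT: the shape of the Satake polynomial -/
def S_SAT : Prop := ∀ (n p : ℕ), p.Prime → 1 ≤ n → ∀ (k : Type) [Field k] [Finite k] [CharP k p]
  (a m : ℕ), n = p ^ a * m → ¬ p ∣ m → ∀ τ : ℕ → k,
  (∀ j, j ≤ n → ¬ p ^ a ∣ j → τ j = 0) →
  (∀ i, i ≤ m → (n.choose (p ^ a) : k) ^ i * τ (p ^ a * i) = (n.choose (p ^ a * i) : k) * τ (p ^ a) ^ i) →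
  ∃ c : k, ∑ j ∈ Finset.range (n + 1), Polynomial.C ((-1) ^ j * τ j) * Polynomial.X ^ (n - j) =
    (Polynomial.X - Polynomial.C c) ^ n

/-- EIG: the Satake polynomial at the places with `q ≡ 1` modulo `p` is the `n`-th power of a linear
polynomial -/
def S_EIG : Prop := ∀ (n : ℕ) (F : Type) [Field F] [NumberField F] (Sg : Finset (Pl F))
  (L : Level n Sg) (p : ℕ) (O : Type) [CommRing O] (W : Type) [AddCommGroup W] [Module O W]
  (C : Coef L p O W), 3 ≤ n → p.Prime → ∀ (k : Type) [Field k] [Finite k] [CharP k p] [Algebra O k]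
  (θ : FreeAlgebra O (HI n Sg) →ₐ[O] k) (t : ℤ) (i : ℕ), i < 2 → C.LocNe i θ →
  ∀ v : {v : Pl F // v ∉ Sg}, (p : ℤ) ∣ (qv v.1 : ℤ) - 1 →
    ∃ c : k, satake θ t v = (Polynomial.X - Polynomial.C c) ^ n

/-- GAL: Frobenius elements at places with `q ≡ 1` modulo `p` -/
def S_GAL : Prop := ∀ (F E : Type) [Field F] [NumberField F] [Field E] [NumberField E]
  [Algebra F E] [IsGalois F E] (p : ℕ), p.Prime → ∀ S : Finset (Pl F),
  ∃ (Γ : Type) (_ : Group Γ) (_ : Finite Γ) (π : Γ →* Gal(E/F)) (χ : Γ →* (ZMod p)ˣ),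
    Function.Surjective π ∧ ∀ g : Γ, χ g = 1 → ∃ v : Pl F, v ∉ S ∧ (p : ℤ) ∣ (qv v : ℤ) - 1 ∧
      ∃ P : Ideal (𝓞 E), P.IsPrime ∧ (∀ a ∈ v.asIdeal, algebraMap (𝓞 F) (𝓞 E) a ∈ P) ∧
        ∀ x : 𝓞 E, π g • x - x ^ (qv v) ∈ P

/-- RTH: representations whose restriction to the kernel of a cyclic character has only scalar
characteristic polynomials -/
def S_RTH : Prop := ∀ (n : ℕ), 2 ≤ n → ∀ (p : ℕ), p.Prime → ∀ (k : Type) [Field k] [Finite k]
  [CharP k p] (Γ Γ' : Type) [Group Γ] [Finite Γ] [Group Γ'] (π : Γ →* Γ') (χ : Γ →* (ZMod p)ˣ)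
  (ρ : Γ' →* GL (Fin n) k), Function.Surjective π →
  (∀ g, χ g = 1 → ∃ c : k, (ρ (π g)).1.charpoly = (Polynomial.X - Polynomial.C c) ^ n) →
  ¬ AbsIrr ρ

/-- the final result -/
def S_FIN : Prop := ∀ (n : ℕ) (F : Type) [Field F] [NumberField F] (Sg : Finset (Pl F))
  (L : Level n Sg) (p : ℕ) (O : Type) [CommRing O] (W : Type) [AddCommGroup W] [Module O W]
  (C : Coef L p O W), 3 ≤ n → p.Prime → ∀ (k : Type) [Field k] [Finite k] [CharP k p] [Algebra O k]
  (θ : FreeAlgebra O (HI n Sg) →ₐ[O] k) (e t : ℤ), (e = 1 ∨ e = -1) →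
  ∀ (E : Type) [Field E] [NumberField E] [Algebra F E] [IsGalois F E] (ρ : Gal(E/F) →* GL (Fin n) k),
  Attached θ e t ρ → AbsIrr ρ → ∀ i : ℕ, C.LocNe i θ → 2 ≤ i

end Pool.Agent.L0h47.NF
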