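import Pool.Agent.L0h47.NF.Stm

/-!
# Statements of the modules of the project V2: `GL_2` over number fields with infinitely many units
-/

set_option autoImplicit false

namespace Pool.Agent.L0h47.NF

open Matrix NumberField IsDedekindDomain
open scoped WithZero
open Pool.Agent.L0h47.CG (tvr Ele EV ele_top mtr mtr_mul mtr_one mtr_inj)

/-! ## Prime elements in residue classes -/

section
variable {K : Type} [Field K] [NumberField K]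

/-- `x` is totally positive (definitionally `Pool.Agent.Y773.TPos`) -/
def TotP (K : Type) [Field K] [NumberField K] (x : 𝓞 K) : Prop := ∀ σ : K →+* ℝ, 0 < σ (x : K)

/-- the sum over the prime ideals -/
noncomputable def PS (η : Ideal (𝓞 K) → ℂ) (s : ℝ) : ℂ :=
  ∑' 𝔭 : {𝔭 : Ideal (𝓞 K) // Prime 𝔭}, η 𝔭.1 * ((Ideal.absNorm 𝔭.1 : ℕ) : ℂ) ^ (-(s : ℂ))

end

/-- DSM: summability -/
def S_DSM : Prop := ∀ (K : Type) [Field K] [NumberField K] (s : ℝ), 1 < s →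
  Summable (fun 𝔭 : {𝔭 : Ideal (𝓞 K) // Prime 𝔭} => ((Ideal.absNorm 𝔭.1 : ℕ) : ℝ) ^ (-s))

/-- DNT: nontrivial ray class characters -/
def S_DNT : Prop := ∀ (K : Type) [Field K] [NumberField K] (𝔪 : Ideal (𝓞 K))
  (η : Ideal (𝓞 K) →*₀ ℂ), 𝔪 ≠ ⊥ →
  (∀ 𝔞 : Ideal (𝓞 K), 𝔞 ≠ ⊥ → (η 𝔞 ≠ 0 ↔ IsCoprime 𝔞 𝔪)) →
  (∀ x : 𝓞 K, x ≠ 0 → x - 1 ∈ 𝔪 → TotP K x → η (Ideal.span {x}) = 1) →
  (∀ 𝔞, ‖η 𝔞‖ ≤ 1) → (∃ 𝔞 : Ideal (𝓞 K), 𝔞 ≠ ⊥ ∧ IsCoprime 𝔞 𝔪 ∧ η 𝔞 ≠ 1) →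
  ∃ (C δ : ℝ), 0 < δ ∧ ∀ s : ℝ, 1 < s → s < 1 + δ → ‖PS η s‖ ≤ C

/-- DTR: the trivial character -/
def S_DTR : Prop := ∀ (K : Type) [Field K] [NumberField K] (𝔪 : Ideal (𝓞 K)), 𝔪 ≠ ⊥ →
  ∀ B δ : ℝ, 0 < δ → ∃ s : ℝ, 1 < s ∧ s < 1 + δ ∧
    B ≤ ∑' 𝔭 : {𝔭 : Ideal (𝓞 K) // Prime 𝔭 ∧ IsCoprime 𝔭 𝔪}, ((Ideal.absNorm 𝔭.1 : ℕ) : ℝ) ^ (-s)

/-- DCL: every narrow ray class contains a prime ideal -/
def S_DCL : Prop := ∀ (K : Type) [Field K] [NumberField K] (𝔪 𝔞 : Ideal (𝓞 K)), 𝔪 ≠ ⊥ → 𝔪 ≠ ⊤ →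
  IsCoprime 𝔞 𝔪 → ∃ (𝔭 : Ideal (𝓞 K)) (x y : 𝓞 K), Prime 𝔭 ∧ x - 1 ∈ 𝔪 ∧ y - 1 ∈ 𝔪 ∧
    TotP K x ∧ TotP K y ∧ Ideal.span {x} * 𝔭 = Ideal.span {y} * 𝔞

/-- DIR: prime elements in residue classes -/
def S_DIR : Prop := ∀ (K : Type) [Field K] [NumberField K] (𝔪 : Ideal (𝓞 K)) (x : 𝓞 K), 𝔪 ≠ ⊥ →
  IsCoprime (Ideal.span {x}) 𝔪 → ∃ π : 𝓞 K, Prime π ∧ π - x ∈ 𝔪

/-! ## Rows -/

/-- NRM: norms modulo a natural number -/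
def S_NRM : Prop := ∀ (F : Type) [Field F] [NumberField F] (π : 𝓞 F) (c : ℤ) (q : ℕ), Prime π →
  ((q : ℕ) : 𝓞 F) ∣ π - (c : 𝓞 F) → (q : ℤ) ∣ ((Ideal.absNorm (Ideal.span {π}) : ℕ) : ℤ) - 1 →
  (q : ℤ) ∣ c ^ (2 * Module.finrank ℚ F) - 1

/-- ROW: unimodular rows can be moved such that the orders of the units are under control at a
given prime `l` -/
def S_ROW : Prop := ∀ (F : Type) [Field F] [NumberField F], ∃ (K m : ℕ), K ≠ 0 ∧ m ≠ 0 ∧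
  ∀ M : ℕ, M ≠ 0 → K ∣ M → ∀ l : ℕ, l.Prime → ∀ a b : 𝓞 F, IsCoprime a b →
    ((M : ℕ) : 𝓞 F) ^ 2 ∣ a - 1 → ((M : ℕ) : 𝓞 F) ^ 2 ∣ b →
    ∃ (s t : 𝓞 F) (o : ℕ), o ≠ 0 ∧ (∀ j : ℕ, l ^ j ∣ o → l ^ j ∣ m) ∧
      ∀ u : (𝓞 F)ˣ, a + (b + a * ((M : ℕ) : 𝓞 F) * s) * ((M : ℕ) : 𝓞 F) * t ∣ ((u ^ o : (𝓞 F)ˣ) : 𝓞 F) - 1

/-! ## Germs of homomorphisms -/

section
variable {n : ℕ} {F : Type} [Field F] [NumberField F]

/-- conjugation by elements of `GL_n(F)` -/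
noncomputable def cj (g : GL (Fin n) F) (γ : GQ n F) : GQ n F :=
  ⟨g * γ.1 * g⁻¹, by
    intro φ
    have h : (g * γ.1 * g⁻¹).1.det = γ.1.1.det := by
      rw [Units.val_mul, Units.val_mul, Matrix.det_mul, Matrix.det_mul, mul_right_comm,
        ← Matrix.det_mul, ← Units.val_mul, mul_inv_cancel, Units.val_one, Matrix.det_one, one_mul]
    rw [h]
    exact γ.2 φ⟩

/-- `φ` is a homomorphism on the congruence subgroup of level `N` -/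
def AddOn {A : Type} [AddCommGroup A] (N : ℕ) (φ : GQ n F → A) : Prop :=
  ∀ γ γ', dg n γ ∈ KN n F N → dg n γ' ∈ KN n F N → φ (γ * γ') = φ γ + φ γ'

/-- `diag(u, 1)` -/
noncomputable def dU (u : (𝓞 F)ˣ) : GL (Fin 2) F where
  val := !![((u : 𝓞 F) : F), 0; 0, 1]
  inv := !![(((u⁻¹ : (𝓞 F)ˣ) : 𝓞 F) : F), 0; 0, 1]
  val_inv := by
    have h : ((u : 𝓞 F) : F) * (((u⁻¹ : (𝓞 F)ˣ) : 𝓞 F) : F) = 1 := by
      have := congrArg (algebraMap (𝓞 F) F) (Units.mul_inv u)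
      rw [map_mul, map_one] at this
      exact this
    ext i j
    fin_cases i <;> fin_cases j <;> simp [Matrix.mul_apply]
  inv_val := by
    have h : (((u⁻¹ : (𝓞 F)ˣ) : 𝓞 F) : F) * ((u : 𝓞 F) : F) = 1 := by
      have := congrArg (algebraMap (𝓞 F) F) (Units.inv_mul u)
      rw [map_mul, map_one] at this
      exact this
    ext i j
    fin_cases i <;> fin_cases j <;> simp [Matrix.mul_apply]

end

/-- TOR: a fixed power of every unit acts trivially on the germs of homomorphisms -/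
def S_TOR : Prop := ∀ (F : Type) [Field F] [NumberField F], ∃ m : ℕ, m ≠ 0 ∧
  ∀ (A : Type) [AddCommGroup A] (w : ℕ), w ≠ 0 → (∀ a : A, w • a = 0) → ∀ N : ℕ, N ≠ 0 →
  ∀ φ : GQ 2 F → A, AddOn N φ → ∃ M : ℕ, M ≠ 0 ∧ ∀ γ : GQ 2 F, dg 2 γ ∈ KN 2 F M →
    ∀ u : (𝓞 F)ˣ, φ (cj (dU (u ^ m)) γ) = φ γ

/-- the statement of C1 for one `n` and one field -/
def C1At (n : ℕ) (F : Type) [Field F] [NumberField F] : Prop := ∀ (A : Type) [AddCommGroup A]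
  (w : ℕ), w ≠ 0 → (∀ a : A, w • a = 0) → ∀ N : ℕ, N ≠ 0 → ∀ φ : GQ n F → A, AddOn N φ →
  ∀ δ : SpecialLinearGroup (Fin n) F, ∃ M : ℕ, M ≠ 0 ∧
    ∀ γ, dg n γ ∈ KN n F M → φ ((sQ δ)⁻¹ * γ * sQ δ) = φ γ

/-- C12: the case `n = 2` -/
def S_C12 : Prop := ∀ (F : Type) [Field F] [NumberField F],
  (∃ u : (𝓞 F)ˣ, ∀ k : ℕ, k ≠ 0 → u ^ k ≠ 1) → C1At 2 F

/-- the statement of HST for one `n` and one field -/
def HSTAt (n : ℕ) (F : Type) [Field F] [NumberField F] : Prop := ∀ (A : Type) [AddCommGroup A]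
  (w : ℕ), w ≠ 0 → (∀ a : A, w • a = 0) → ∀ c : GQ n F → AG n F → A, IsCoc c →
  ∀ N : ℕ, N ≠ 0 → (∀ γ x, ∀ κ ∈ KN n F N, c γ (x * κ) = c γ x) →
  ∀ y y' : AG n F, SameDet y y' →
  ∃ f : AG n F → A, LC f ∧ ∀ γ x, c γ (x * y) - c γ (x * y') = dF f γ x

/-- HS2 -/
def S_HS2 : Prop := ∀ (n : ℕ) (F : Type) [Field F] [NumberField F], C1At n F → HSTAt n F

/-- PR2: homomorphisms from `SL_n(O_v)` to groups killed by an integer that is invertible in `O_v` -/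
def S_PR2 : Prop := ∀ (n : ℕ) (F : Type) [Field F] [NumberField F] (v : Pl F) (A : Type)
  [AddCommGroup A] (w : ℕ), vv v ((w : ℕ) : Kv v) = 1 → (∀ a : A, w • a = 0) → ∀ ψ : LG n v → A,
  (∀ u ∈ U n v, ∀ u' ∈ U n v, u.1.det = 1 → u'.1.det = 1 → ψ (u * u') = ψ u + ψ u') →
  ∀ u ∈ U n v, u.1.det = 1 → ψ u = 0

/-- TJ2: the Hecke operators `T_j` at the places prime to `p` -/
def S_TJ2 : Prop := ∀ (n : ℕ) (F : Type) [Field F] [NumberField F] (Sg : Finset (Pl F))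
  (L : Level n Sg) (p : ℕ) (O : Type) [CommRing O] (W : Type) [AddCommGroup W] [Module O W]
  (C : Coef L p O W) (v : {v : Pl F // v ∉ Sg}) (j : ℕ), HSTAt n F → 1 ≤ n → p ≠ 0 →
  vv v.1 ((p : ℕ) : Kv v.1) = 1 → j ≤ n →
  Sem C v.1 (FreeAlgebra.ι O ⟨v, td n v.1 j⟩) (deg n v.1 j) j

/-- EI2: the Satake polynomial at the places with `q ≡ 1` modulo `p` -/
def S_EI2 : Prop := ∀ (n : ℕ) (F : Type) [Field F] [NumberField F] (Sg : Finset (Pl F))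
  (L : Level n Sg) (p : ℕ) (O : Type) [CommRing O] (W : Type) [AddCommGroup W] [Module O W]
  (C : Coef L p O W), HSTAt n F → 1 ≤ n → p.Prime → ∀ (k : Type) [Field k] [Finite k] [CharP k p]
  [Algebra O k] (θ : FreeAlgebra O (HI n Sg) →ₐ[O] k) (t : ℤ) (i : ℕ), i < 2 → C.LocNe i θ →
  ∀ v : {v : Pl F // v ∉ Sg}, (p : ℤ) ∣ (qv v.1 : ℤ) - 1 →
    ∃ c : k, satake θ t v = (Polynomial.X - Polynomial.C c) ^ n

/-- FI2: the result for `GL_2` -/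
def S_FI2 : Prop := ∀ (F : Type) [Field F] [NumberField F],
  2 ≤ Fintype.card (InfinitePlace F) → ∀ (Sg : Finset (Pl F))
  (L : Level 2 Sg) (p : ℕ) (O : Type) [CommRing O] (W : Type) [AddCommGroup W] [Module O W]
  (C : Coef L p O W), p.Prime → ∀ (k : Type) [Field k] [Finite k] [CharP k p] [Algebra O k]
  (θ : FreeAlgebra O (HI 2 Sg) →ₐ[O] k) (e t : ℤ), (e = 1 ∨ e = -1) →
  ∀ (E : Type) [Field E] [NumberField E] [Algebra F E] [IsGalois F E] (ρ : Gal(E/F) →* GL (Fin 2) k),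
  Attached θ e t ρ → AbsIrr ρ → ∀ i : ℕ, C.LocNe i θ → 2 ≤ i

end Pool.Agent.L0h47.NF
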