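import Pool.Agent.L0h47.NF.Base

/-!
# Cohomology of the locally symmetric spaces of `GL_n` over a number field, Hecke algebra, Galois
representations
-/

set_option autoImplicit false

namespace Pool.Agent.L0h47.NF

open Matrix NumberField IsDedekindDomain
open scoped WithZero

variable {n : ℕ} {F : Type} [Field F] [NumberField F] {Sg : Finset (Pl F)} {L : Level n Sg}
  {p : ℕ} {O : Type} [CommRing O] {W : Type} [AddCommGroup W] [Module O W]

/-- The indices of the Hecke operators: a place `v` outside of `Sg` and a matrix in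
`GL_n(F_v)`. -/
abbrev HI (n : ℕ) (Sg : Finset (Pl F)) : Type := Σ v : {v : Pl F // v ∉ Sg}, LG n v.1

/-- The cohomology group `H^i(Y(K_f), W)`, as the cohomology of the group of matrices over `F` with
totally positive determinant, with values in the functions on `GL_n(A_f)`. -/
noncomputable abbrev Coef.H (C : Coef L p O W) (i : ℕ) : ModuleCat O :=
  groupCohomology (Rep.of C.rep) i

/-- The Hecke operator on cohomology. -/
noncomputable def Coef.T (C : Coef L p O W) (i : ℕ) (a : HI n Sg) :
    Module.End O (C.H i) :=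
  (groupCohomology.map (MonoidHom.id (GQ n F)) (C.heckeRep a.1.1 a.1.2 a.2) i).hom

/-- The action of the Hecke algebra on cohomology. -/
noncomputable def Coef.hAct (C : Coef L p O W) (i : ℕ) :
    FreeAlgebra O (HI n Sg) →ₐ[O] Module.End O (C.H i) :=
  FreeAlgebra.lift O (C.T i)

/-- `H^i(Y(K_f), W)_m ≠ 0` for the kernel `m` of the system of Hecke eigenvalues `θ`: there is a
class whose annihilator in the Hecke algebra is contained in `m`. -/
def Coef.LocNe (C : Coef L p O W) (i : ℕ) {k : Type} [Field k] [Algebra O k]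
    (θ : FreeAlgebra O (HI n Sg) →ₐ[O] k) : Prop :=
  ∃ h : C.H i, ∀ P : FreeAlgebra O (HI n Sg), C.hAct i P h = 0 → θ P = 0

lemma exists_unif (v : Pl F) : ∃ x : F, v.valuation F x = WithZero.exp (-1 : ℤ) :=
  v.valuation_exists_uniformizer F

/-- a uniformizer at `v` -/
noncomputable def unif (v : Pl F) : Kv v := cst v (exists_unif v).choose

lemma vv_unif (v : Pl F) : vv v (unif v) = WithZero.exp (-1 : ℤ) := by
  unfold unif
  rw [vv_cst]
  exact (exists_unif v).choose_spec

lemma unif_ne (v : Pl F) : unif v ≠ 0 := by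
  intro h
  have := vv_unif v
  rw [h, map_zero] at this
  exact WithZero.exp_ne_zero this.symm

/-- the matrix `diag(ϖ, …, ϖ, 1, …, 1)` with `j` entries equal to a uniformizer -/
noncomputable def td (n : ℕ) (v : Pl F) (j : ℕ) : LG n v where
  val := diagonal (fun i => if (i : ℕ) < j then unif v else 1)
  inv := diagonal (fun i => if (i : ℕ) < j then (unif v)⁻¹ else 1)
  val_inv := by
    rw [diagonal_mul_diagonal, ← diagonal_one]
    congr 1
    funext i
    split_ifs
    · exact mul_inv_cancel₀ (unif_ne v)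
    · exact mul_one _
  inv_val := by
    rw [diagonal_mul_diagonal, ← diagonal_one]
    congr 1
    funext i
    split_ifs
    · exact inv_mul_cancel₀ (unif_ne v)
    · exact mul_one _

/-- the number of elements of the residue field -/
noncomputable def qv (v : Pl F) : ℕ := Ideal.absNorm v.asIdeal

/-- The Satake polynomial at `v` of a system of Hecke eigenvalues `θ`, twisted by the `t`-th power
of the cyclotomic character:
`∑_j (-1)^j q^{j(j-1)/2 + t j} θ(T_{v,j}) X^{n-j}`, with `q` the number of elements of the residue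
field, `T_{v,j}` the double coset operator of `diag(ϖ, …, ϖ, 1, …, 1)` (`j` entries `ϖ`). -/
noncomputable def satake {k : Type} [Field k] [Algebra O k]
    (θ : FreeAlgebra O (HI n Sg) →ₐ[O] k) (t : ℤ) (v : {v : Pl F // v ∉ Sg}) : Polynomial k :=
  ∑ j ∈ Finset.range (n + 1),
    Polynomial.C ((-1) ^ j * ((qv v.1 : ℕ) : k) ^ (((j * (j - 1) / 2 : ℕ) : ℤ) + t * j) *
      θ (FreeAlgebra.ι O ⟨v, td n v.1 j⟩)) * Polynomial.X ^ (n - j)

/-- The representation `ρ` of the Galois group of the finite Galois extension `E` of `F` is attached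
to `θ`: it is unramified outside of `Sg` and for `v` outside of `Sg` the characteristic polynomial
of the (arithmetic for `e = 1`, geometric for `e = -1`) Frobenius elements at `v` is the Satake
polynomial. -/
structure Attached {k : Type} [Field k] [Algebra O k] (θ : FreeAlgebra O (HI n Sg) →ₐ[O] k)
    (e t : ℤ) {E : Type} [Field E] [NumberField E] [Algebra F E] (ρ : Gal(E/F) →* GL (Fin n) k) :
    Prop where
  unram : ∀ v : Pl F, v ∉ Sg → ∀ P : Ideal (𝓞 E), P.IsPrime →
    (∀ a ∈ v.asIdeal, algebraMap (𝓞 F) (𝓞 E) a ∈ P) →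
    ∀ σ : Gal(E/F), (∀ x : 𝓞 E, σ • x - x ∈ P) → ρ σ = 1
  frob : ∀ v : {v : Pl F // v ∉ Sg}, ∀ P : Ideal (𝓞 E), P.IsPrime →
    (∀ a ∈ v.1.asIdeal, algebraMap (𝓞 F) (𝓞 E) a ∈ P) →
    ∀ σ : Gal(E/F), (∀ x : 𝓞 E, σ • x - x ^ (qv v.1) ∈ P) →
      ((ρ (σ ^ e)).1).charpoly = satake θ t v

/-- `ρ` is absolutely irreducible: after a finite extension of `k` there is no proper nonzero
invariant subspace. -/
def AbsIrr {k : Type} [Field k] {Γ : Type} [Group Γ] (ρ : Γ →* GL (Fin n) k) : Prop :=
  ∀ (k' : Type) [Field k'] [Algebra k k'] [FiniteDimensional k k']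
    (S : Submodule k' (Fin n → k')),
    (∀ σ, ∀ v ∈ S, ((ρ σ).1.map (algebraMap k k')) *ᵥ v ∈ S) → S = ⊥ ∨ S = ⊤

end Pool.Agent.L0h47.NF
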